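import Pool.Agent.W135.Sefe.Draw

/-!
# A counterexample to the Hanani-Tutte criterion for simultaneous embedding with fixed edges

The definitions (`IsArc`, `IsProperCrossing`, `Drawing`, `Drawing.crossings`, `Independent`,
`Drawing.iocr`, `siocrOf`, `siocr`, `Drawing.IsPlanar`, `AdmitsSEFE`) are in
`Pool.Agent.W135.Sefe.Defs`.

The common graph is the tree with the edges `PQ`, `P pᵢ`, `Q qᵢ` (`i = 0, 1, 2`).  The graph `G₁`
has moreover the edges `pᵢ qᵢ`, and `G₂` has moreover the edges `pᵢ qᵢ₊₁` (indices modulo 3).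
-/

set_option autoImplicit false

namespace Pool.Agent.Results.MP_3c943f_co.SefeCounterexample

open Pool.Agent.W135.Sefe

/-- There are graphs `G₁` and `G₂` (with eight common vertices) with `siocr(G₁, G₂) = 0` that do not
admit a simultaneous embedding with fixed edges.  (The union has a drawing, so that the minimum in
the definition of `siocr` is the minimum of a nonempty set.) -/
theorem result : ∃ G₁ G₂ : SimpleGraph (Fin 8), Nonempty (Drawing (G₁ ⊔ G₂)) ∧
    siocr G₁ G₂ = 0 ∧ ¬ AdmitsSEFE G₁ G₂ := by
  refine ⟨gr in1, gr in2, ⟨draw (fun _ => mem_sup)⟩, ?_, no_sefe⟩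
  apply Nat.sInf_eq_zero.2
  left
  exact ⟨draw (fun _ => mem_sup), siocrOf_zero⟩

end Pool.Agent.Results.MP_3c943f_co.SefeCounterexample
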